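import Mathlib

/-!
# MP_c3dba2_gt: optimal correspondences of three spaces and Hausdorff realisation: (C) and (H) both fail
-/

set_option autoImplicit false

open Set Topology Metric

universe u

namespace Pool.Agent.Results.MP_c3dba2_gt.BothFail

section defs

variable {X Y : Type u} [MetricSpace X] [MetricSpace Y]

/-- correspondences -/
def IsCorr {X Y : Type u} (R : Set (X × Y)) : Prop := (∀ x, ∃ y, (x, y) ∈ R) ∧ ∀ y, ∃ x, (x, y) ∈ R

/-- the distortion -/
noncomputable def dis (R : Set (X × Y)) : ℝ :=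
  sSup {r | ∃ p ∈ R, ∃ q ∈ R, r = |dist p.1 q.1 - dist p.2 q.2|}

variable (X Y) in
/-- the Gromov-Hausdorff distance -/
noncomputable def dGH : ℝ := (1 / 2) * sInf {r | ∃ R : Set (X × Y), IsCorr R ∧ r = dis R}

/-- optimal correspondences -/
def IsOptimal (R : Set (X × Y)) : Prop := IsCorr R ∧ (1 / 2) * dis R = dGH X Y

end defs

/-- the projection `e_ij(R)` of a set of triples -/
def proj {X : Fin 3 → Type} (R : Set (∀ i, X i)) (i j : Fin 3) : Set (X i × X j) :=
  (fun x : ∀ i, X i => (x i, x j)) '' R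

/-- statement (C) -/
def StatementC : Prop :=
  ∀ (X : Fin 3 → Type) [∀ i, MetricSpace (X i)] [∀ i, CompactSpace (X i)] [∀ i, Nonempty (X i)],
    ∃ R : Set (∀ i, X i), ∀ i j, IsOptimal (proj R i j)

/-- statement (H) -/
def StatementH : Prop :=
  ∀ (X : Fin 3 → Type) [∀ i, MetricSpace (X i)] [∀ i, CompactSpace (X i)] [∀ i, Nonempty (X i)],
    ∃ (Z : Type) (_ : MetricSpace Z) (_ : CompactSpace Z) (φ : ∀ i, X i → Z), (∀ i, Isometry (φ i)) ∧
      ∀ i j, hausdorffDist (range (φ i)) (range (φ j)) = dGH (X i) (X j)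

/-- the distances of the three four-point spaces -/
def D (i : Fin 3) (x y : Fin 4) : ℕ :=
  match i, x, y with
  | _, 0, 0 => 0 | _, 1, 1 => 0 | _, 2, 2 => 0 | _, 3, 3 => 0
  | _, 0, 1 => 40 | _, 1, 0 => 40
  | _, 2, 3 => 50 | _, 3, 2 => 50
  | 0, 0, 2 => 62 | 0, 2, 0 => 62 | 0, 1, 2 => 58 | 0, 2, 1 => 58
  | 0, 0, 3 => 70 | 0, 3, 0 => 70 | 0, 1, 3 => 70 | 0, 3, 1 => 70
  | 1, 0, 2 => 61 | 1, 2, 0 => 61 | 1, 1, 2 => 59 | 1, 2, 1 => 59
  | 1, 0, 3 => 72 | 1, 3, 0 => 72 | 1, 1, 3 => 68 | 1, 3, 1 => 68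
  | 2, 0, 2 => 59 | 2, 2, 0 => 59 | 2, 1, 2 => 61 | 2, 2, 1 => 61
  | 2, 0, 3 => 72 | 2, 3, 0 => 72 | 2, 1, 3 => 68 | 2, 3, 1 => 68

/-- the four-point spaces -/
def P (_i : Fin 3) : Type := Fin 4

instance (i : Fin 3) : Finite (P i) := inferInstanceAs (Finite (Fin 4))
instance (i : Fin 3) : Nonempty (P i) := inferInstanceAs (Nonempty (Fin 4))

theorem D_self : ∀ i x, D i x x = 0 := by decide
theorem D_comm : ∀ i x y, D i x y = D i y x := by decide
theorem D_tri : ∀ i x y z, D i x z ≤ D i x y + D i y z := by decide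
theorem D_zero : ∀ i x y, D i x y = 0 → x = y := by decide

instance (i : Fin 3) : MetricSpace (P i) where
  dist x y := (D i x y : ℝ)
  dist_self x := by
    change ((D i x x : ℕ) : ℝ) = 0
    rw [D_self]; simp
  dist_comm x y := by
    change ((D i x y : ℕ) : ℝ) = ((D i y x : ℕ) : ℝ)
    rw [D_comm]
  dist_triangle x y z := by
    change ((D i x z : ℕ) : ℝ) ≤ ((D i x y : ℕ) : ℝ) + ((D i y z : ℕ) : ℝ)
    exact_mod_cast D_tri i x y z
  eq_of_dist_eq_zero := by
    intro x y h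
    have h' : ((D i x y : ℕ) : ℝ) = 0 := h
    exact D_zero i x y (by exact_mod_cast h')

theorem dist_P (i : Fin 3) (x y : P i) : dist x y = (D i x y : ℝ) := rfl

instance (i : Fin 3) : CompactSpace (P i) := Finite.compactSpace

/-- the optimal matchings: the identity for the pairs `(0,1)` and `(1,2)`, the transposition of the first two
points for the pair `(0,2)` -/
def tau (x : Fin 4) : Fin 4 := match x with
  | 0 => 1 | 1 => 0 | 2 => 2 | 3 => 3

/-- approximate isometry condition, over the natural numbers -/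
def good (i j : Fin 3) (f : Fin 4 → Fin 4) : Prop :=
  ∀ x y, D i x y ≤ D j (f x) (f y) + 2 ∧ D j (f x) (f y) ≤ D i x y + 2

instance (i j : Fin 3) (f : Fin 4 → Fin 4) : Decidable (good i j f) := by
  unfold good; infer_instance

theorem good01 : ∀ a b c d : Fin 4, good 0 1 ![a, b, c, d] → (a, b, c, d) = (0, 1, 2, 3) := by decide +kernel
theorem good12 : ∀ a b c d : Fin 4, good 1 2 ![a, b, c, d] → (a, b, c, d) = (0, 1, 2, 3) := by decide +kernel
theorem good02 : ∀ a b c d : Fin 4, good 0 2 ![a, b, c, d] → (a, b, c, d) = (1, 0, 2, 3) := by decide +kernel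

theorem fn_eq (f : Fin 4 → Fin 4) : f = ![f 0, f 1, f 2, f 3] := by
  funext x
  fin_cases x <;> rfl

/-- the matching of the pair `(i, j)` -/
def mt (i j : Fin 3) : Fin 4 → Fin 4 := if i = 0 ∧ j = 2 then tau else id

/-- the three relevant pairs -/
def rel (i j : Fin 3) : Prop := (i = 0 ∧ j = 1) ∨ (i = 1 ∧ j = 2) ∨ (i = 0 ∧ j = 2)

theorem good_unique {i j : Fin 3} (h : rel i j) {f : Fin 4 → Fin 4} (hf : good i j f) : f = mt i j := by
  rw [fn_eq f] at hf ⊢
  rcases h with ⟨rfl, rfl⟩ | ⟨rfl, rfl⟩ | ⟨rfl, rfl⟩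
  · have := good01 _ _ _ _ hf
    simp only [Prod.mk.injEq] at this
    obtain ⟨h0, h1, h2, h3⟩ := this
    rw [h0, h1, h2, h3]
    funext x
    fin_cases x <;> rfl
  · have := good12 _ _ _ _ hf
    simp only [Prod.mk.injEq] at this
    obtain ⟨h0, h1, h2, h3⟩ := this
    rw [h0, h1, h2, h3]
    funext x
    fin_cases x <;> rfl
  · have := good02 _ _ _ _ hf
    simp only [Prod.mk.injEq] at this
    obtain ⟨h0, h1, h2, h3⟩ := this
    rw [h0, h1, h2, h3]
    funext x
    fin_cases x <;> rfl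

theorem good_mt {i j : Fin 3} (h : rel i j) : good i j (mt i j) := by
  rcases h with ⟨rfl, rfl⟩ | ⟨rfl, rfl⟩ | ⟨rfl, rfl⟩ <;> decide

theorem mt_surj (i j : Fin 3) : Function.Surjective (mt i j) := by
  revert i j
  unfold Function.Surjective
  decide

/-- a correspondence all of whose pairs are distorted by at most two is contained in the graph of the
matching -/
theorem mem_graph {i j : Fin 3} (h : rel i j) {R : Set (P i × P j)} (hR : ∀ x, ∃ y, (x, y) ∈ R)
    (hd : ∀ p ∈ R, ∀ q ∈ R, |dist p.1 q.1 - dist p.2 q.2| ≤ 2) {x : P i} {y : P j} (hxy : (x, y) ∈ R) :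
    y = mt i j x := by
  classical
  choose f hf using hR
  let g : Fin 4 → Fin 4 := Function.update (f : Fin 4 → Fin 4) x y
  have hg : ∀ z : Fin 4, ((z, g z) : P i × P j) ∈ R := by
    intro z
    by_cases hz : z = x
    · subst hz
      simp only [g, Function.update_self]
      exact hxy
    · simp only [g, Function.update_of_ne hz]
      exact hf z
  have hgood : good i j g := by
    intro a b
    have h1 := hd _ (hg a) _ (hg b)
    rw [dist_P, dist_P, abs_le] at h1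
    obtain ⟨h2, h3⟩ := h1
    constructor
    · have : ((D i a b : ℕ) : ℝ) ≤ ((D j (g a) (g b) + 2 : ℕ) : ℝ) := by
        push_cast
        linarith
      exact_mod_cast this
    · have : ((D j (g a) (g b) : ℕ) : ℝ) ≤ ((D i a b + 2 : ℕ) : ℝ) := by
        push_cast
        linarith
      exact_mod_cast this
  have h4 := congrFun (good_unique h hgood) x
  simp only [g, Function.update_self] at h4
  exact h4

/-- the graph of the matching -/
def gr (i j : Fin 3) : Set (P i × P j) := {p | p.2 = mt i j p.1}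

theorem gr_corr (i j : Fin 3) : IsCorr (gr i j) := by
  refine ⟨fun x => ⟨mt i j x, rfl⟩, fun y => ?_⟩
  obtain ⟨x, hx⟩ := mt_surj i j y
  exact ⟨x, hx.symm⟩

theorem gr_dist {i j : Fin 3} (h : rel i j) : ∀ p ∈ gr i j, ∀ q ∈ gr i j, |dist p.1 q.1 - dist p.2 q.2| ≤ 2 := by
  rintro ⟨x, y⟩ hx ⟨x', y'⟩ hx'
  have h1 : y = mt i j x := hx
  have h2 : y' = mt i j x' := hx'
  subst h1
  subst h2
  rw [dist_P, dist_P, abs_le]
  obtain ⟨h3, h4⟩ := good_mt h x x'
  have h3' : ((D i x x' : ℕ) : ℝ) ≤ ((D j (mt i j x) (mt i j x') + 2 : ℕ) : ℝ) := by exact_mod_cast h3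
  have h4' : ((D j (mt i j x) (mt i j x') : ℕ) : ℝ) ≤ ((D i x x' + 2 : ℕ) : ℝ) := by exact_mod_cast h4
  push_cast at h3' h4'
  constructor <;> linarith

theorem dis_nonneg {X Y : Type u} [MetricSpace X] [MetricSpace Y] (R : Set (X × Y)) : 0 ≤ dis R := by
  apply Real.sSup_nonneg
  rintro r ⟨p, -, q, -, rfl⟩
  exact abs_nonneg _

theorem dGH_le {i j : Fin 3} (h : rel i j) : dGH (P i) (P j) ≤ 1 := by
  have h1 : sInf {r | ∃ R : Set (P i × P j), IsCorr R ∧ r = dis R} ≤ dis (gr i j) := by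
    refine csInf_le ⟨0, ?_⟩ ⟨_, gr_corr i j, rfl⟩
    rintro r ⟨R, -, rfl⟩
    exact dis_nonneg R
  have h2 : dis (gr i j) ≤ 2 := by
    apply csSup_le
    · obtain ⟨x⟩ : Nonempty (P i) := inferInstance
      exact ⟨_, (x, mt i j x), rfl, (x, mt i j x), rfl, rfl⟩
    · rintro r ⟨p, hp, q, hq, rfl⟩
      exact gr_dist h p hp q hq
  unfold dGH
  linarith

theorem le_dis {i j : Fin 3} (R : Set (P i × P j)) {p q : P i × P j} (hp : p ∈ R) (hq : q ∈ R) :
    |dist p.1 q.1 - dist p.2 q.2| ≤ dis R := by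
  refine le_csSup ?_ ⟨p, hp, q, hq, rfl⟩
  have hfin : {r | ∃ p ∈ R, ∃ q ∈ R, r = |dist p.1 q.1 - dist p.2 q.2|}.Finite := by
    have : {r | ∃ p ∈ R, ∃ q ∈ R, r = |dist p.1 q.1 - dist p.2 q.2|} ⊆
        range (fun z : (P i × P j) × (P i × P j) => |dist z.1.1 z.2.1 - dist z.1.2 z.2.2|) := by
      rintro r ⟨p, -, q, -, rfl⟩
      exact ⟨(p, q), rfl⟩
    exact (finite_range _).subset this
  exact hfin.bddAbove

/-- optimal correspondences of the three pairs are contained in the graphs of the matchings -/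
theorem optimal_mem {i j : Fin 3} (h : rel i j) {R : Set (P i × P j)} (hR : IsOptimal R) {x : P i} {y : P j}
    (hxy : (x, y) ∈ R) : y = mt i j x := by
  refine mem_graph h hR.1.1 (fun p hp q hq => (le_dis R hp hq).trans ?_) hxy
  have h1 := hR.2
  have h2 := dGH_le h
  linarith

theorem not_C : ¬ StatementC := by
  intro h
  obtain ⟨R, hR⟩ := h P
  obtain ⟨y, hy⟩ := (hR 0 1).1.1 (0 : Fin 4)
  obtain ⟨x, hx, hxy⟩ := hy
  have e0 : x 0 = (0 : Fin 4) := congrArg Prod.fst hxy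
  have h01 : x 1 = mt 0 1 (x 0) := optimal_mem (Or.inl ⟨rfl, rfl⟩) (hR 0 1) ⟨x, hx, rfl⟩
  have h12 : x 2 = mt 1 2 (x 1) := optimal_mem (Or.inr (Or.inl ⟨rfl, rfl⟩)) (hR 1 2) ⟨x, hx, rfl⟩
  have h02 : x 2 = mt 0 2 (x 0) := optimal_mem (Or.inr (Or.inr ⟨rfl, rfl⟩)) (hR 0 2) ⟨x, hx, rfl⟩
  rw [h12, h01, e0] at h02
  exact absurd h02 (show ¬ (mt 1 2 (mt 0 1 0) = mt 0 2 0) by decide)

/-- If the three spaces are realised in a metric space with the correct Hausdorff distances, then matched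
points are at distance at most one. -/
theorem close_points {i j : Fin 3} (h : rel i j) {Z : Type} [MetricSpace Z] {φ : P i → Z} {ψ : P j → Z}
    (hφ : Isometry φ) (hψ : Isometry ψ) (hd : hausdorffDist (range φ) (range ψ) = dGH (P i) (P j)) (x : P i) :
    dist (φ x) (ψ (mt i j x)) ≤ 1 := by
  have hle : hausdorffDist (range φ) (range ψ) ≤ 1 := hd ▸ dGH_le h
  have hcφ : IsCompact (range φ) := isCompact_range hφ.continuous
  have hcψ : IsCompact (range ψ) := isCompact_range hψ.continuous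
  have hfin : hausdorffEDist (range φ) (range ψ) ≠ ⊤ :=
    hausdorffEDist_ne_top_of_nonempty_of_bounded (range_nonempty φ) (range_nonempty ψ) hcφ.isBounded hcψ.isBounded
  have h1 : ∀ x, ∃ y, dist (φ x) (ψ y) ≤ 1 := by
    intro x
    have h2 : infDist (φ x) (range ψ) ≤ hausdorffDist (range φ) (range ψ) :=
      infDist_le_hausdorffDist_of_mem (mem_range_self x) hfin
    obtain ⟨_, ⟨y, rfl⟩, hy⟩ := hcψ.exists_infDist_eq_dist (range_nonempty ψ) (φ x)
    exact ⟨y, by linarith⟩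
  obtain ⟨y, hy⟩ := h1 x
  have h3 : y = mt i j x := by
    refine mem_graph h (R := {p | dist (φ p.1) (ψ p.2) ≤ 1}) h1 ?_ hy
    intro p hp q hq
    have hp' : dist (φ p.1) (ψ p.2) ≤ 1 := hp
    have hq' : dist (φ q.1) (ψ q.2) ≤ 1 := hq
    rw [← hφ.dist_eq p.1 q.1, ← hψ.dist_eq p.2 q.2, abs_le]
    have t1 := dist_triangle4 (φ p.1) (ψ p.2) (ψ q.2) (φ q.1)
    have t2 := dist_triangle4 (ψ p.2) (φ p.1) (φ q.1) (ψ q.2)
    rw [dist_comm (ψ q.2) (φ q.1)] at t1
    rw [dist_comm (ψ p.2) (φ p.1)] at t2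
    constructor <;> linarith
  rw [← h3]
  exact hy

theorem not_H : ¬ StatementH := by
  intro h
  obtain ⟨Z, _, _, φ, hφ, hd⟩ := h P
  have a := close_points (Or.inl ⟨rfl, rfl⟩) (hφ 0) (hφ 1) (hd 0 1) (0 : Fin 4)
  have b := close_points (Or.inr (Or.inl ⟨rfl, rfl⟩)) (hφ 1) (hφ 2) (hd 1 2) (0 : Fin 4)
  have c := close_points (Or.inr (Or.inr ⟨rfl, rfl⟩)) (hφ 0) (hφ 2) (hd 0 2) (0 : Fin 4)
  have e01 : mt 0 1 (0 : Fin 4) = 0 := by decide
  have e12 : mt 1 2 (0 : Fin 4) = 0 := by decide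
  have e02 : mt 0 2 (0 : Fin 4) = 1 := by decide
  rw [e01] at a
  rw [e12] at b
  rw [e02] at c
  have key : dist (φ 2 (0 : Fin 4)) (φ 2 (1 : Fin 4)) = 40 := by
    rw [(hφ 2).dist_eq, dist_P]
    have : D 2 0 1 = 40 := by decide
    rw [this]; norm_num
  have t := dist_triangle4 (φ 2 (0 : Fin 4)) (φ 1 (0 : Fin 4)) (φ 0 (0 : Fin 4)) (φ 2 (1 : Fin 4))
  have d1 := dist_comm (φ 2 (0 : Fin 4)) (φ 1 (0 : Fin 4))
  have d2 := dist_comm (φ 1 (0 : Fin 4)) (φ 0 (0 : Fin 4))
  linarith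

/-- **Both statements (C) and (H) are false (already for spaces with four points); in particular the
implication (C) ⟹ (H) of Q1 holds.** -/
theorem result : ¬ StatementC ∧ ¬ StatementH ∧ (StatementC → StatementH) :=
  ⟨not_C, not_H, fun h => absurd h not_C⟩

end Pool.Agent.Results.MP_c3dba2_gt.BothFail
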